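import Pool.Agent.SQD.Stmts

/-!
SQD, row SIX: the sieve, asymptotic form.
-/

set_option autoImplicit false

open Filter

open scoped BigOperators Topology

noncomputable section

namespace Pool.Agent.SQD.H97

/-- `E^n / n! ≤ exp (-n)` if `8 E ≤ n` -/
theorem pow_fact (E : ℝ) (hE : 0 ≤ E) (n : ℕ) (h : 8 * E ≤ n) :
    E ^ n / (n.factorial : ℝ) ≤ Real.exp (-(n : ℝ)) := by
  have h1 := Real.pow_div_factorial_le_exp (8 * E) (by positivity) n
  have he : Real.exp 2 ≤ 8 := by
    have h2 := Real.exp_one_lt_d9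
    have h3 : Real.exp 2 = Real.exp 1 * Real.exp 1 := by rw [← Real.exp_add]; norm_num
    rw [h3]
    nlinarith [Real.exp_pos 1]
  have h8 : Real.exp (2 * n) ≤ 8 ^ n := by
    have : Real.exp (2 * (n : ℝ)) = Real.exp 2 ^ n := by
      rw [mul_comm, Real.exp_nat_mul]
    rw [this]
    exact pow_le_pow_left₀ (Real.exp_pos _).le he n
  have h4 : 8 ^ n * (E ^ n / (n.factorial : ℝ)) ≤ Real.exp n := by
    calc 8 ^ n * (E ^ n / (n.factorial : ℝ)) = (8 * E) ^ n / (n.factorial : ℝ) := by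
          rw [mul_pow]; ring
      _ ≤ Real.exp (8 * E) := h1
      _ ≤ Real.exp n := Real.exp_le_exp.2 h
  have h5 : 0 ≤ E ^ n / (n.factorial : ℝ) := by positivity
  have h6 : Real.exp (2 * n) * (E ^ n / (n.factorial : ℝ)) ≤ Real.exp n :=
    le_trans (mul_le_mul_of_nonneg_right h8 h5) h4
  have h7 : Real.exp (-(n : ℝ)) = Real.exp n / Real.exp (2 * n) := by
    rw [← Real.exp_sub]; ring_nf
  rw [h7, le_div_iff₀ (Real.exp_pos _), mul_comm]
  exact h6

theorem six (hs : SveStmt) (hm : MerStmt) : SixStmt := by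
  intro L B hL
  obtain ⟨C, hC⟩ := hm
  have hL1 : (1 : ℝ) ≤ L := by exact_mod_cast hL
  have hB0 : (0 : ℝ) ≤ B := Nat.cast_nonneg B
  have hC0 : 0 ≤ |C| := abs_nonneg C
  obtain ⟨A, hA⟩ : ∃ A : ℝ, A = 8 * L * (4 + |C|) + 4 * B + 3 := ⟨_, rfl⟩
  obtain ⟨T, hT⟩ : ∃ T : ℝ, T = 2 * (A * (L + 1) + 4 * B + 1) := ⟨_, rfl⟩
  have hA3 : 3 ≤ A := by
    rw [hA]
    have : 0 ≤ 8 * L * (4 + |C|) := by positivity
    linarith
  have hT2 : 2 ≤ T := by
    rw [hT]
    have : 0 ≤ A * (L + 1) := by positivity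
    linarith
  refine ⟨⌈Real.exp (T ^ 4)⌉₊, ?_⟩
  intro x N z c d S hx hN hz hS hB
  have hx1 : Real.exp (T ^ 4) ≤ x := le_trans (Nat.le_ceil _) (by exact_mod_cast hx)
  have hxpos : (0 : ℝ) < x := lt_of_lt_of_le (Real.exp_pos _) hx1
  obtain ⟨l, hldef⟩ : ∃ l : ℝ, l = Real.log x := ⟨_, rfl⟩
  rw [← hldef] at hz hB ⊢
  have hl : T ^ 4 ≤ l := by
    rw [hldef]; exact (Real.le_log_iff_exp_le hxpos).2 hx1
  have hT4 : (16 : ℝ) ≤ T ^ 4 := by
    calc (16 : ℝ) = 2 ^ 4 := by norm_num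
      _ ≤ T ^ 4 := pow_le_pow_left₀ (by norm_num) hT2 4
  have hl16 : 16 ≤ l := le_trans hT4 hl
  have hl0 : 0 ≤ l := by linarith
  have hlpos : 0 < l := by linarith
  obtain ⟨t, htdef⟩ : ∃ t : ℝ, t = l ^ (1 / 4 : ℝ) := ⟨_, rfl⟩
  have ht0 : 0 ≤ t := by rw [htdef]; exact Real.rpow_nonneg hl0 _
  have ht4 : t ^ 4 = l := by
    rw [htdef, ← Real.rpow_natCast, ← Real.rpow_mul hl0]; norm_num
  have htT : T ≤ t := by
    by_contra h
    push Not at h
    have : t ^ 4 < T ^ 4 := pow_lt_pow_left₀ h ht0 (by norm_num)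
    linarith
  have ht1 : 1 ≤ t := by linarith
  have hlog : Real.log l ≤ 4 * t := by
    have h := Real.log_le_rpow_div hl0 (by norm_num : (0 : ℝ) < 1 / 4)
    rw [← htdef] at h
    linarith
  have hlog0 : 0 ≤ Real.log l := Real.log_nonneg (by linarith)
  have hsq : √l = t ^ 2 := by
    rw [← ht4, show t ^ 4 = (t ^ 2) ^ 2 by ring]
    exact Real.sqrt_sq (by positivity)
  -- the sum over `S`
  have hsR0 : 0 ≤ sR S := Finset.sum_nonneg fun q _ => by positivity
  have hE : sR S ≤ Real.log l + |C| := by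
    rcases S.eq_empty_or_nonempty with h | h
    · subst h
      have : sR ∅ = 0 := by simp [sR]
      rw [this]
      linarith
    · obtain ⟨q, hq⟩ := h
      have hz2 : 2 ≤ z := le_trans (hS q hq).1.two_le (hS q hq).2.2.1
      have h1 := (hC 2 z le_rfl hz2).2
      have h2 : sR S ≤ sR (PR 0 z) := by
        refine Finset.sum_le_sum_of_subset_of_nonneg ?_ fun _ _ _ => by positivity
        intro q hq
        have h3 := hS q hq
        rw [PR, Finset.mem_filter, Finset.mem_Ioc]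
        exact ⟨⟨h3.1.pos, h3.2.2.1⟩, h3.1⟩
      have hz2' : (2 : ℝ) ≤ z := by exact_mod_cast hz2
      have h4 : Real.log z ≤ l := by
        have h5 : Real.log z ≤ √l := by
          rw [Real.log_le_iff_le_exp (by linarith)]
          exact hz
        rw [hsq] at h5
        have h6 : t ^ 2 ≤ t ^ 4 := pow_le_pow_right₀ ht1 (by norm_num)
        linarith
      have h7 : 0 < Real.log z := Real.log_pos (by linarith)
      have h8 : Real.log (Real.log z) ≤ Real.log l := Real.log_le_log h7 h4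
      have h9 := le_abs_self C
      linarith
  obtain ⟨E, hEdef⟩ : ∃ E : ℝ, E = L * sR S := ⟨_, rfl⟩
  have hE0 : 0 ≤ E := by rw [hEdef]; positivity
  have hE1 : E ≤ L * (Real.log l + |C|) := by
    rw [hEdef]; exact mul_le_mul_of_nonneg_left hE (by linarith)
  obtain ⟨R, hR⟩ : ∃ R : ℝ, R = 8 * L * (Real.log l + |C|) + B * Real.log l := ⟨_, rfl⟩
  have hR0 : 0 ≤ R := by rw [hR]; positivity
  obtain ⟨r, hr⟩ : ∃ r : ℕ, r = 2 * ⌈R / 2⌉₊ := ⟨_, rfl⟩
  have hreven : Even r := ⟨⌈R / 2⌉₊, by rw [hr]; ring⟩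
  have hr1 : R ≤ r := by
    have := Nat.le_ceil (R / 2)
    rw [hr]; push_cast; linarith
  have hr2 : (r : ℝ) ≤ R + 2 := by
    have := Nat.ceil_lt_add_one (show 0 ≤ R / 2 by positivity)
    rw [hr]; push_cast; linarith
  have key := hs L c d N z r S hL hreven hS
  rw [← hEdef] at key hB
  -- power of `l`
  have hlB : l ^ B = Real.exp (B * Real.log l) := by
    rw [Real.exp_nat_mul, Real.exp_log hlpos]
  have hlBpos : 0 < l ^ B := by positivity
  -- first term
  have h1 : Real.exp (-E) ≤ 1 / l ^ B := by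
    rw [hlB, one_div, ← Real.exp_neg]
    exact Real.exp_le_exp.2 (by linarith)
  -- second term
  have h2 : E ^ (r + 1) / ((r + 1).factorial : ℝ) ≤ 1 / l ^ B := by
    have h8 : 8 * E ≤ ((r + 1 : ℕ) : ℝ) := by
      push_cast
      have h9 : 8 * E ≤ 8 * (L * (Real.log l + |C|)) := by linarith
      have h10 : 0 ≤ (B : ℝ) * Real.log l := by positivity
      have h11 : 8 * (L * (Real.log l + |C|)) ≤ R := by rw [hR]; linarith
      linarith
    refine le_trans (pow_fact E hE0 (r + 1) h8) ?_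
    rw [hlB, one_div, ← Real.exp_neg]
    refine Real.exp_le_exp.2 ?_
    push_cast
    have h12 : 0 ≤ 8 * L * (Real.log l + |C|) := by positivity
    have h13 : B * Real.log l ≤ R := by rw [hR]; linarith
    linarith
  -- third term
  have h3 : ((L : ℝ) * z + 1) ^ r ≤ N / l ^ B := by
    have hb1 : (L : ℝ) * z + 1 ≤ Real.exp (L + t ^ 2) := by
      have hz' : (z : ℝ) ≤ Real.exp (t ^ 2) := by rw [← hsq]; exact hz
      have he1 : (1 : ℝ) ≤ Real.exp (t ^ 2) := Real.one_le_exp (by positivity)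
      have he2 : (L : ℝ) + 1 ≤ Real.exp L := Real.add_one_le_exp _
      rw [Real.exp_add]
      calc (L : ℝ) * z + 1 ≤ L * Real.exp (t ^ 2) + Real.exp (t ^ 2) :=
            add_le_add (mul_le_mul_of_nonneg_left hz' (by linarith)) he1
        _ = (L + 1) * Real.exp (t ^ 2) := by ring
        _ ≤ Real.exp L * Real.exp (t ^ 2) :=
            mul_le_mul_of_nonneg_right he2 (Real.exp_pos _).le
    have hb2 : ((L : ℝ) * z + 1) ^ r ≤ Real.exp (r * (L + t ^ 2)) := by
      rw [Real.exp_nat_mul]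
      exact pow_le_pow_left₀ (by positivity) hb1 r
    have hrA : (r : ℝ) ≤ A * t := by
      have h14 : L * Real.log l ≤ L * (4 * t) := mul_le_mul_of_nonneg_left hlog (by linarith)
      have h15 : B * Real.log l ≤ B * (4 * t) := mul_le_mul_of_nonneg_left hlog hB0
      have h16 : L * |C| ≤ L * |C| * t := le_mul_of_one_le_right (by positivity) ht1
      have h17 : R ≤ 8 * (L * (4 * t)) + 8 * (L * |C| * t) + B * (4 * t) := by
        rw [hR]; nlinarith
      have h18 : A * t = 8 * (L * (4 * t)) + 8 * (L * |C| * t) + B * (4 * t) + 3 * t := by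
        rw [hA]; ring
      linarith
    have ht2 : (1 : ℝ) ≤ t ^ 2 := one_le_pow₀ ht1
    have ht3 : (1 : ℝ) ≤ t ^ 3 := one_le_pow₀ ht1
    have hLt : (L : ℝ) + t ^ 2 ≤ (L + 1) * t ^ 2 := by nlinarith
    have h19 : r * (L + t ^ 2) ≤ A * (L + 1) * t ^ 3 := by
      calc (r : ℝ) * (L + t ^ 2) ≤ A * t * ((L + 1) * t ^ 2) :=
            mul_le_mul hrA hLt (by positivity) (by positivity)
        _ = A * (L + 1) * t ^ 3 := by ring
    have h20 : B * Real.log l ≤ 4 * B * t ^ 3 := by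
      have h21 : t ≤ t ^ 3 := by
        calc t = t ^ 1 := (pow_one t).symm
          _ ≤ t ^ 3 := pow_le_pow_right₀ ht1 (by norm_num)
      calc B * Real.log l ≤ B * (4 * t) := mul_le_mul_of_nonneg_left hlog hB0
        _ ≤ B * (4 * t ^ 3) := mul_le_mul_of_nonneg_left (by linarith) hB0
        _ = 4 * B * t ^ 3 := by ring
    have h22 : (2 : ℝ) ≤ Real.exp (t ^ 3) := by
      have := Real.add_one_le_exp (t ^ 3)
      linarith
    have h23 : Real.exp (r * (L + t ^ 2)) * l ^ B * 2 ≤ 2 * N := by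
      calc Real.exp (r * (L + t ^ 2)) * l ^ B * 2
          ≤ Real.exp (r * (L + t ^ 2)) * Real.exp (B * Real.log l) * Real.exp (t ^ 3) := by
            rw [hlB]
            exact mul_le_mul_of_nonneg_left h22 (by positivity)
        _ = Real.exp (r * (L + t ^ 2) + B * Real.log l + t ^ 3) := by
            rw [← Real.exp_add, ← Real.exp_add]
        _ ≤ Real.exp (l / 2) := by
            refine Real.exp_le_exp.2 ?_
            have h24 : r * (L + t ^ 2) + B * Real.log l + t ^ 3 ≤ T / 2 * t ^ 3 := by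
              have : T / 2 * t ^ 3 = A * (L + 1) * t ^ 3 + 4 * B * t ^ 3 + t ^ 3 := by
                rw [hT]; ring
              rw [this]
              linarith
            have h25 : T / 2 * t ^ 3 ≤ t / 2 * t ^ 3 :=
              mul_le_mul_of_nonneg_right (by linarith) (by positivity)
            have h26 : t / 2 * t ^ 3 = l / 2 := by rw [← ht4]; ring
            linarith
        _ = √(x : ℝ) := by
            rw [hldef, Real.sqrt_eq_rpow, Real.rpow_def_of_pos hxpos]
            ring_nf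
        _ ≤ 2 * N := hN
    rw [le_div_iff₀ hlBpos]
    have h27 : ((L : ℝ) * z + 1) ^ r * l ^ B ≤ Real.exp (r * (L + t ^ 2)) * l ^ B :=
      mul_le_mul_of_nonneg_right hb2 hlBpos.le
    linarith
  have hN0 : (0 : ℝ) ≤ N := Nat.cast_nonneg N
  calc ((Sft L c d N S).ncard : ℝ)
      ≤ N * (Real.exp (-E) + E ^ (r + 1) / ((r + 1).factorial : ℝ)) +
        ((L : ℝ) * z + 1) ^ r := key
    _ ≤ N * (1 / l ^ B + 1 / l ^ B) + N / l ^ B :=
        add_le_add (mul_le_mul_of_nonneg_left (add_le_add h1 h2) hN0) h3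
    _ = 3 * N / l ^ B := by ring

end Pool.Agent.SQD.H97
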